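import Pool.Agent.DPL.StmtsA
import Pool.Agent.Helper33_DPS.Pos
import Pool.Agent.Helper88_DPS.Dq
import Pool.Agent.Helper94_DPS.WIT
import Pool.Agent.Helper65_DPS.DDR

/-!
# DPL row CSC (MP_d97b4e_co)
-/

namespace Pool.Agent.DPL.H39

open Finset Polynomial Pool.Agent.DPS

theorem prod_y0 (n t : ℕ) (ht : t ≤ n) :
    ∏ m ∈ Finset.Icc 1 t, (y n 0 - y n m) =
      (-1 : ℝ) ^ t * ((t.factorial : ℝ) * (n.descFactorial t : ℝ)) := by
  induction t with
  | zero => simp
  | succ t ih =>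
    rw [Finset.prod_Icc_succ_top (by omega), ih (by omega), Nat.factorial_succ,
      Nat.descFactorial_succ, H94.y_sub, Nat.cast_mul, Nat.cast_mul, Nat.cast_sub (by omega)]
    push_cast
    ring

theorem csc : CSCStmt := by
  intro n k t htk hn
  have hins : insert 0 (Finset.Icc 1 t) = Finset.range (t + 1) := by
    ext m
    simp only [Finset.mem_insert, Finset.mem_Icc, Finset.mem_range]
    omega
  have h1 := H88.ddi (y n) (Finset.Icc 1 t) (gk n k) 0 (by simp)
    (H94.y_injOn hn _ (by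
      intro i hi
      rw [hins, Finset.mem_range] at hi
      omega))
  rw [hins, H94.ddc H65.ddr t n k htk.le hn, prod_y0 n t (by omega)] at h1
  have hg0 : gk n k 0 = 1 := by
    obtain ⟨ha, hb⟩ := H94.kap_gk (l := 0) hn (Nat.zero_le k)
    exact mul_right_cancel₀ ha (by rw [hb, one_mul])
  have h2 : ∑ l ∈ Finset.Icc 1 t, gk n k l *
      ∏ m ∈ (Finset.Icc 1 t).erase l, ((y n 0 - y n m) / (y n l - y n m)) =
      -∑ l ∈ Finset.Icc 1 t, cc n k t 0 l := by
    rw [← Finset.sum_neg_distrib]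
    refine Finset.sum_congr rfl fun l hl => ?_
    rw [← H33.EE_zero hn htk hl, H33.EE]
    obtain ⟨ha, hb⟩ := H94.kap_gk (l := l) hn (by
      have := Finset.mem_Icc.1 hl
      omega)
    rw [← hb, mul_div_cancel_right₀ _ ha]
  rw [hg0, h2, sub_neg_eq_add] at h1
  have hk : (k.descFactorial t : ℝ) ≠ 0 := by
    have := (Nat.descFactorial_pos (n := k) (k := t)).2 htk.le
    exact_mod_cast this.ne'
  have ht : (t.factorial : ℝ) ≠ 0 := Nat.cast_ne_zero.2 (Nat.factorial_ne_zero _)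
  have hs : ((-1 : ℝ) ^ t) * ((-1 : ℝ) ^ t) = 1 := by
    rw [← mul_pow]; norm_num
  rw [cs, h1]
  have e : (-1 : ℝ) ^ t * ((t.factorial : ℝ) * (n.descFactorial t : ℝ)) *
      ((-1 : ℝ) ^ t / ((t.factorial : ℝ) * (k.descFactorial t : ℝ))) * (k.descFactorial t : ℝ) =
      ((-1 : ℝ) ^ t * (-1 : ℝ) ^ t) * (n.descFactorial t : ℝ) := by
    field_simp
  rw [e, hs, one_mul]

end Pool.Agent.DPL.H39
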