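import Pool.Agent.DPL.StmtsA
import Pool.Agent.Helper33_DPS.Pos

/-!
# DPL row KRA (MP_d97b4e_co)
-/

namespace Pool.Agent.DPL.H39

open Finset Polynomial Pool.Agent.DPS

theorem kra : KRAStmt := by
  intro n k j hj hn
  have h0 : (0 : ℝ) < ((n - k).choose k : ℝ) := by
    exact_mod_cast Nat.choose_pos (by omega)
  have h1 : |kap n k j / kap n k 0| = ((n - k - j).choose (k - j) : ℝ) / ((n - k).choose k : ℝ) := by
    unfold kap
    rw [pow_zero, one_mul, Nat.sub_zero, Nat.sub_zero, abs_div, abs_mul, abs_pow, abs_neg, abs_one,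
      one_pow, one_mul, Nat.abs_cast, Nat.abs_cast]
  have h2 : (n - k).choose k * k.choose j = (n - k).choose j * (n - k - j).choose (k - j) :=
    Nat.choose_mul hj
  have h3 : (n - k - j).choose (k - j) * (n - k).descFactorial j =
      k.descFactorial j * (n - k).choose k := by
    rw [Nat.descFactorial_eq_factorial_mul_choose, Nat.descFactorial_eq_factorial_mul_choose]
    calc (n - k - j).choose (k - j) * (j.factorial * (n - k).choose j)
        = j.factorial * ((n - k).choose j * (n - k - j).choose (k - j)) := by ring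
      _ = j.factorial * k.choose j * (n - k).choose k := by rw [← h2]; ring
  have h3' : ((n - k - j).choose (k - j) : ℝ) * ((n - k).descFactorial j : ℝ) =
      (k.descFactorial j : ℝ) * ((n - k).choose k : ℝ) := by exact_mod_cast h3
  rw [h1, div_mul_eq_mul_div, h3', mul_div_cancel_right₀ _ h0.ne']

end Pool.Agent.DPL.H39
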